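import Pool.Agent.Helper1.UQ.St1

/-!
# Project UQ (MP_e3e162_pr), module DEN: the density of the phase with a ghost field

`theorem hDEN (hRKM : StRKM) : StDEN`.  Two applications of the inequality of Jensen for the
exponential function (in the form of the tangent line), see `exp_ex_le`; no splitting of the
configurations is needed, since adding one edge changes the partition function by a factor between
`1 - p e` and `1` (`S_union_ge`, `S_union_le`).
-/

set_option autoImplicit false

open Finset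

namespace Pool.Agent.Helper58.UQ

open Classical Pool.Agent.Helper30.RCU Pool.Agent.Helper1.UQ

universe u v

section general

variable {V : Type u} {ι : Type v} {φ : ι → Sym2 V} {q : ℝ}

/-- the weight depends only on the probabilities of the edges of `E` -/
theorem wt_congr {p p' : ι → ℝ} {E ω : Finset ι} (hω : ω ⊆ E) (h : ∀ e ∈ E, p e = p' e) :
    wt φ p q E ω = wt φ p' q E ω := by
  unfold wt
  rw [Finset.prod_congr rfl fun e he => h e (hω he),
    Finset.prod_congr (rfl : E \ ω = E \ ω) fun e he => by rw [h e (mem_sdiff.mp he).1]]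

theorem S_congr {p p' : ι → ℝ} {E : Finset ι} (h : ∀ e ∈ E, p e = p' e) (f : Finset ι → ℝ) :
    S φ p q E f = S φ p' q E f :=
  Finset.sum_congr rfl fun ω hω => by rw [wt_congr (mem_powerset.mp hω) h]

theorem ex_congr {p p' : ι → ℝ} {E : Finset ι} (h : ∀ e ∈ E, p e = p' e) (f : Finset ι → ℝ) :
    ex φ p q E f = ex φ p' q E f := by
  unfold ex; rw [S_congr h, S_congr h]

/-- the product part of the weight as one product -/
theorem prod_split (p : ι → ℝ) {E ω : Finset ι} (hω : ω ⊆ E) :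
    (∏ e ∈ ω, p e) * (∏ e ∈ E \ ω, (1 - p e)) = ∏ e ∈ E, (if e ∈ ω then p e else 1 - p e) := by
  rw [Finset.prod_ite]
  congr 1
  · refine Finset.prod_congr ?_ fun _ _ => rfl
    ext e; simp only [mem_filter]
    exact ⟨fun h => ⟨hω h, h⟩, fun h => h.2⟩
  · refine Finset.prod_congr ?_ fun _ _ => rfl
    ext e; simp only [mem_filter, mem_sdiff]

/-- two systems of probabilities: the ratio of the weights -/
theorem wt_ratio {p1 p2 : ι → ℝ} {E ω : Finset ι} (hω : ω ⊆ E) (g : ι → Finset ι → ℝ)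
    (h : ∀ e ∈ E, (if e ∈ ω then p2 e else 1 - p2 e) =
      Real.exp (g e ω) * (if e ∈ ω then p1 e else 1 - p1 e)) :
    wt φ p2 q E ω = Real.exp (∑ e ∈ E, g e ω) * wt φ p1 q E ω := by
  unfold wt
  rw [prod_split p2 hω, prod_split p1 hω, Finset.prod_congr rfl h, Finset.prod_mul_distrib,
    Real.exp_sum]
  ring

variable {p : ι → ℝ}

/-- Jensen inequality for two systems of probabilities -/
theorem exp_ex_le {p1 p2 : ι → ℝ} (hp : ∀ e, 0 ≤ p1 e) (hp1 : ∀ e, p1 e ≤ 1) (hq : 1 ≤ q)
    (E : Finset ι) (g : ι → Finset ι → ℝ)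
    (h : ∀ ω ⊆ E, ∀ e ∈ E, (if e ∈ ω then p2 e else 1 - p2 e) =
      Real.exp (g e ω) * (if e ∈ ω then p1 e else 1 - p1 e)) :
    Real.exp (ex φ p1 q E (fun ω => ∑ e ∈ E, g e ω)) * S φ p1 q E (fun _ => 1) ≤
      S φ p2 q E (fun _ => 1) := by
  set F : Finset ι → ℝ := fun ω => ∑ e ∈ E, g e ω with hF
  set m := ex φ p1 q E F with hm
  have hS := S_one_pos (φ := φ) hp hp1 hq E
  have e2 : S φ p2 q E (fun _ => 1) = S φ p1 q E (fun ω => Real.exp (F ω)) := by
    unfold S
    refine Finset.sum_congr rfl fun ω hω => ?_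
    rw [wt_ratio (mem_powerset.mp hω) g (h ω (mem_powerset.mp hω))]
    ring
  have e3 : S φ p1 q E (fun ω => Real.exp m * (1 + (F ω - m))) =
      Real.exp m * S φ p1 q E (fun _ => 1) := by
    have hmS : S φ p1 q E F = m * S φ p1 q E (fun _ => 1) := by
      rw [hm]; unfold ex; field_simp
    have c1 : S φ p1 q E (fun _ => m) = m * S φ p1 q E (fun _ => 1) := by
      rw [← S_mul]; simp
    rw [S_mul, S_add, S_sub, hmS, c1]
    ring
  rw [e2, ← e3]
  refine S_mono hp hp1 hq E fun ω => ?_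
  have h1 := Real.add_one_le_exp (F ω - m)
  calc Real.exp m * (1 + (F ω - m)) ≤ Real.exp m * Real.exp (F ω - m) :=
        mul_le_mul_of_nonneg_left (by linarith) (Real.exp_pos _).le
    _ = Real.exp (F ω) := by rw [← Real.exp_add]; congr 1; ring

/-- more edges: the partition function goes down -/
theorem S_union_le (hp : ∀ e, 0 ≤ p e) (hp1 : ∀ e, p e ≤ 1) (hq : 1 ≤ q) (A Y : Finset ι) :
    S φ p q (A ∪ Y) (fun _ => 1) ≤ S φ p q A (fun _ => 1) := by
  induction Y using Finset.induction_on with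
  | empty => simp
  | insert e Y he ih =>
    rw [union_insert]
    by_cases h : e ∈ A ∪ Y
    · rw [insert_eq_of_mem h]; exact ih
    · rw [S_insert hq h]
      have h1 : S φ p q (A ∪ Y) (fun ω => theta φ q e ω * 1) ≤ S φ p q (A ∪ Y) (fun _ => 1) := by
        refine S_mono hp hp1 hq _ fun ω => ?_
        rw [mul_one]
        unfold theta; split_ifs
        · exact le_rfl
        · exact inv_le_one_of_one_le₀ hq
      have h2 := mul_le_mul_of_nonneg_left h1 (hp e)
      linarith

/-- more edges: the partition function goes down by a bounded factor only -/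
theorem S_union_ge (hp : ∀ e, 0 ≤ p e) (hp1 : ∀ e, p e ≤ 1) (hq : 1 ≤ q) (A Y : Finset ι)
    {t : ℝ} (ht0 : 0 ≤ t) (ht1 : t ≤ 1) (ht : ∀ e ∈ Y, e ∉ A → p e = t) :
    (1 - t) ^ Y.card * S φ p q A (fun _ => 1) ≤ S φ p q (A ∪ Y) (fun _ => 1) := by
  induction Y using Finset.induction_on with
  | empty => simp
  | insert e Y he ih =>
    have ih' := ih fun e' he' hA => ht e' (mem_insert_of_mem he') hA
    rw [union_insert, card_insert_of_notMem he, pow_succ]
    have hS := S_one_pos (φ := φ) hp hp1 hq (A ∪ Y)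
    have h1t : 0 ≤ 1 - t := by linarith
    have hstep : (1 - t) * ((1 - t) ^ Y.card * S φ p q A (fun _ => 1)) ≤
        (1 - t) * S φ p q (A ∪ Y) (fun _ => 1) := mul_le_mul_of_nonneg_left ih' h1t
    by_cases h : e ∈ A ∪ Y
    · rw [insert_eq_of_mem h]
      nlinarith
    · rw [S_insert hq h]
      have hA : e ∉ A := fun hh => h (mem_union_left _ hh)
      have hpe : p e = t := ht e (mem_insert_self _ _) hA
      have h1 : 0 ≤ S φ p q (A ∪ Y) (fun ω => theta φ q e ω * 1) :=
        S_nonneg hp hp1 hq _ fun ω => by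
          have := theta_pos (φ := φ) hq e ω
          linarith
      have h2 := mul_nonneg (hp e) h1
      rw [hpe] at h2 ⊢
      linarith

end general

/-- **DEN** -/
theorem hDEN (hRKM : StRKM.{u}) : StDEN.{u} := by
  intro V V' ι φ σ p p' t q A Y pa pb D hp'0 hp'p hp1 ht0 ht1 hq hAY hA hY hD
  obtain ⟨hR1, -, -⟩ := hRKM V V' ι φ σ
  have hp0 : 0 < p := by linarith
  have hp'1 : p' < 1 := by linarith
  have hq0 : 0 < q := by linarith
  set ψ := cm φ σ with hψ
  set L := Real.log (p * (1 - p') / (p' * (1 - p))) with hL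
  set c := Real.log ((1 - p') / (1 - p)) with hc
  have h1p : 0 < 1 - p := by linarith
  have h1p' : 0 < 1 - p' := by linarith
  have hexpc : Real.exp (-c) = (1 - p) / (1 - p') := by
    rw [hc, ← Real.log_inv, Real.exp_log (by positivity), inv_div]
  have hexpc' : Real.exp c = (1 - p') / (1 - p) := by
    rw [hc, Real.exp_log (by positivity)]
  have hexpL : Real.exp (L - c) = p / p' := by
    rw [hL, hc, Real.exp_sub, Real.exp_log (by positivity), Real.exp_log (by positivity)]
    field_simp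
  have hexpL' : Real.exp (-L + c) = p' / p := by
    have : -L + c = -(L - c) := by ring
    rw [this, Real.exp_neg, hexpL, inv_div]
  -- the three systems of probabilities, defined everywhere
  set p1 : ι → ℝ := fun e => if e ∈ A then p' else t with hp1def
  set p2 : ι → ℝ := fun e => if e ∈ A then p else t with hp2def
  have b1 : ∀ e, 0 ≤ p1 e := fun e => by simp only [hp1def]; split_ifs <;> linarith
  have b1' : ∀ e, p1 e ≤ 1 := fun e => by simp only [hp1def]; split_ifs <;> linarith
  have b2 : ∀ e, 0 ≤ p2 e := fun e => by simp only [hp2def]; split_ifs <;> linarith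
  have b2' : ∀ e, p2 e ≤ 1 := fun e => by simp only [hp2def]; split_ifs <;> linarith
  have hYA : ∀ e ∈ Y, e ∉ A := fun e he h => (Finset.disjoint_left.mp hAY) h he
  have ca : ∀ e ∈ A ∪ Y, pa e = p1 e := by
    intro e he
    simp only [hp1def]
    by_cases h : e ∈ A
    · rw [if_pos h]; exact (hA e h).1
    · rw [if_neg h]; exact hY e ((mem_union.mp he).resolve_left h)
  have cb : ∀ e ∈ A, pb e = p2 e := by
    intro e he
    simp only [hp2def]
    rw [if_pos he]; exact (hA e he).2
  have eqa : ∀ e ∈ A, ex ψ pa q (A ∪ Y) (oe e) = ex ψ p1 q (A ∪ Y) (oe e) :=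
    fun e _ => ex_congr ca _
  have eqb : ∀ e ∈ A, ex φ pb q A (oe e) = ex φ p2 q A (oe e) := fun e _ => ex_congr cb _
  rw [Finset.sum_congr rfl eqa, Finset.sum_congr rfl eqb]
  -- linearity
  have exsum : ∀ {W : Type u} (χ : ι → Sym2 W) (pp : ι → ℝ) (E : Finset ι) (B : Finset ι)
      (f : ι → Finset ι → ℝ), ex χ pp q E (fun ω => ∑ e ∈ B, f e ω) =
        ∑ e ∈ B, ex χ pp q E (f e) := by
    intro W χ pp E B f
    induction B using Finset.induction_on with
    | empty =>
      simp only [Finset.sum_empty]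
      unfold ex S; simp
    | insert e B he ih =>
      simp only [Finset.sum_insert he]
      rw [ex_add, ih]
  -- first Jensen inequality
  set g1 : ι → Finset ι → ℝ := fun e ω => if e ∈ A then L * oe e ω - c else 0 with hg1
  have J1 := exp_ex_le (φ := ψ) (p2 := p2) b1 b1' hq (A ∪ Y) g1 (by
    intro ω _ e _
    by_cases h : e ∈ A
    · by_cases hω : e ∈ ω
      · simp only [hg1, hp1def, hp2def, h, hω, if_true, oe, mul_one]
        rw [hexpL]; field_simp
      · simp only [hg1, hp1def, hp2def, h, hω, if_true, if_false, oe, mul_zero, zero_sub]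
        rw [hexpc]; field_simp
    · simp only [hg1, hp1def, hp2def, h, if_false, Real.exp_zero, one_mul])
  have s1 : ex ψ p1 q (A ∪ Y) (fun ω => ∑ e ∈ A ∪ Y, g1 e ω) =
      L * (∑ e ∈ A, ex ψ p1 q (A ∪ Y) (oe e)) - A.card * c := by
    have h1 : (fun ω : Finset ι => ∑ e ∈ A ∪ Y, g1 e ω) =
        fun ω => L * (∑ e ∈ A, oe e ω) - A.card * c := by
      funext ω
      have hsub : A ⊆ A ∪ Y := subset_union_left
      rw [← Finset.sum_subset hsub (fun e _ he => by simp only [hg1, he, if_false])]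
      rw [Finset.mul_sum]
      have : ∀ e ∈ A, g1 e ω = L * oe e ω - c := fun e he => by simp only [hg1, he, if_true]
      rw [Finset.sum_congr rfl this, Finset.sum_sub_distrib]
      simp
    rw [h1, ex_sub, ex_mul, exsum, ex_const b1 b1' hq]
  rw [s1] at J1
  -- second Jensen inequality
  set g2 : ι → Finset ι → ℝ := fun e ω => -L * oe e ω + c with hg2
  have J2 := exp_ex_le (φ := φ) (p2 := p1) b2 b2' hq A g2 (by
    intro ω _ e h
    by_cases hω : e ∈ ω
    · simp only [hg2, hp1def, hp2def, h, hω, if_true, oe, mul_one]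
      rw [hexpL']; field_simp
    · simp only [hg2, hp1def, hp2def, h, hω, if_true, if_false, oe, mul_zero, zero_add]
      rw [hexpc']; field_simp)
  have s2 : ex φ p2 q A (fun ω => ∑ e ∈ A, g2 e ω) =
      -(L * (∑ e ∈ A, ex φ p2 q A (oe e))) + A.card * c := by
    have h1 : (fun ω : Finset ι => ∑ e ∈ A, g2 e ω) =
        fun ω => (-L) * (∑ e ∈ A, oe e ω) + A.card * c := by
      funext ω
      simp only [hg2]
      rw [Finset.mul_sum, Finset.sum_add_distrib]
      simp
    rw [h1, ex_add, ex_mul, exsum, ex_const b2 b2' hq]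
    ring
  rw [s2] at J2
  -- comparison of the partition functions
  have k1 := S_union_le (φ := ψ) b2 b2' hq A Y
  have k2 := S_union_ge (φ := ψ) b1 b1' hq A Y ht0 ht1.le (fun e _ hA => by
    simp only [hp1def, hA, if_false])
  have hqi : 0 < q⁻¹ := by positivity
  have hqi1 : q⁻¹ ≤ 1 := inv_le_one_of_one_le₀ hq
  have k3 : S ψ p2 q A (fun _ => 1) ≤ q ^ D * S φ p2 q A (fun _ => 1) := by
    rw [← S_mul]
    unfold S
    refine Finset.sum_le_sum fun ω hω => ?_
    have hω' := mem_powerset.mp hω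
    have hr := hD ω hω'
    have hpr : 0 ≤ (∏ e ∈ ω, p2 e) * (∏ e ∈ A \ ω, (1 - p2 e)) :=
      mul_nonneg (Finset.prod_nonneg fun e _ => b2 e)
        (Finset.prod_nonneg fun e _ => sub_nonneg.mpr (b2' e))
    have h3 : q⁻¹ ^ rk ψ ω ≤ q⁻¹ ^ rk φ ω * q ^ D := by
      have h4 : q⁻¹ ^ (rk ψ ω + D) ≤ q⁻¹ ^ rk φ ω := pow_le_pow_of_le_one hqi.le hqi1 hr
      have h5 := mul_le_mul_of_nonneg_right h4 (pow_pos hq0 D).le
      rw [pow_add, mul_assoc, ← mul_pow, inv_mul_cancel₀ hq0.ne', one_pow, mul_one] at h5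
      exact h5
    unfold wt
    have h6 := mul_le_mul_of_nonneg_left h3 hpr
    simp only [mul_one]
    linarith
  have k4 : S φ p1 q A (fun _ => 1) ≤ S ψ p1 q A (fun _ => 1) := by
    unfold S
    refine Finset.sum_le_sum fun ω hω => ?_
    have hpr : 0 ≤ (∏ e ∈ ω, p1 e) * (∏ e ∈ A \ ω, (1 - p1 e)) :=
      mul_nonneg (Finset.prod_nonneg fun e _ => b1 e)
        (Finset.prod_nonneg fun e _ => sub_nonneg.mpr (b1' e))
    have h4 : q⁻¹ ^ rk φ ω ≤ q⁻¹ ^ rk ψ ω := pow_le_pow_of_le_one hqi.le hqi1 (hR1 ω)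
    unfold wt
    have h6 := mul_le_mul_of_nonneg_left h4 hpr
    simp only [mul_one]
    exact h6
  -- combine
  set Ea := ∑ e ∈ A, ex ψ p1 q (A ∪ Y) (oe e) with hEa
  set Eb := ∑ e ∈ A, ex φ p2 q A (oe e) with hEb
  have z1 := S_one_pos (φ := φ) b1 b1' hq A
  have z2 := S_one_pos (φ := φ) b2 b2' hq A
  set X := Real.exp (L * Ea - A.card * c) with hX
  set W := Real.exp (-(L * Eb) + A.card * c) with hW
  have hX0 : 0 < X := Real.exp_pos _
  have hW0 : 0 < W := Real.exp_pos _
  have h1t : 0 < 1 - t := by linarith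
  have hT : 0 < (1 - t) ^ Y.card := pow_pos h1t _
  set Z1 := S φ p1 q A (fun _ => 1) with hZ1
  set Z2 := S φ p2 q A (fun _ => 1) with hZ2
  have c1 : X * ((1 - t) ^ Y.card * Z1) ≤ q ^ D * Z2 := by
    calc X * ((1 - t) ^ Y.card * Z1)
        ≤ X * ((1 - t) ^ Y.card * S ψ p1 q A (fun _ => 1)) := by gcongr
      _ ≤ X * S ψ p1 q (A ∪ Y) (fun _ => 1) := by gcongr
      _ ≤ S ψ p2 q (A ∪ Y) (fun _ => 1) := J1
      _ ≤ S ψ p2 q A (fun _ => 1) := k1
      _ ≤ q ^ D * Z2 := k3
  have c2 : X * W * (1 - t) ^ Y.card ≤ q ^ D := by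
    have h1 : X * ((1 - t) ^ Y.card * (W * Z2)) ≤ X * ((1 - t) ^ Y.card * Z1) := by gcongr
    have h2 : (X * W * (1 - t) ^ Y.card) * Z2 ≤ q ^ D * Z2 := by
      calc (X * W * (1 - t) ^ Y.card) * Z2 = X * ((1 - t) ^ Y.card * (W * Z2)) := by ring
        _ ≤ _ := h1.trans c1
    exact le_of_mul_le_mul_right h2 z2
  have c3 : Real.log (X * W * (1 - t) ^ Y.card) ≤ Real.log (q ^ D) :=
    Real.log_le_log (by positivity) c2
  rw [Real.log_mul (by positivity) (by positivity), Real.log_mul hX0.ne' hW0.ne', hX, hW,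
    Real.log_exp, Real.log_exp, Real.log_pow, Real.log_pow] at c3
  linarith

end Pool.Agent.Helper58.UQ
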